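import Pool.Agent.H74.LoopSn

set_option autoImplicit false

namespace Pool.Agent.Results.MP_829a29_al.Supernilpotent

open Pool.Agent.H74.Loops

/-- A loop (finite or not) whose multiplication group is nilpotent of class `c` is
`4 ^ c`-supernilpotent. -/
theorem result (Q : Type) [Loop Q] [Group.IsNilpotent (Mlt Q)] :
    Supernilp Q (4 ^ Group.nilpotencyClass (Mlt Q)) :=
  supernilp_of_upper _ (Subgroup.upperCentralSeries_nilpotencyClass)

end Pool.Agent.Results.MP_829a29_al.Supernilpotent
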